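import Pool.Agent.K4H73.Blocking.Count

/-!
# Averaging over all matrices: a cubic Bonferroni inequality
-/

set_option autoImplicit false

namespace Pool.Agent.K4H73.Blocking

open Finset Matrix

variable {F : Type*} [Field F] [Fintype F] [DecidableEq F]

/-- the number of members of `R` that `M` maps into `C` -/
def X (R C : Finset (Fin 3 → F)) (M : Matrix (Fin 3) (Fin 3) F) : ℕ :=
  (R.filter fun r => M *ᵥ r ∈ C).card

theorem sum_X (R C : Finset (Fin 3 → F)) (hR0 : ∀ r ∈ R, r ≠ 0) :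
    ∑ M : Matrix (Fin 3) (Fin 3) F, X R C M = R.card * (C.card * Fintype.card F ^ 6) := by
  have h1 : ∀ M : Matrix (Fin 3) (Fin 3) F, X R C M = ∑ r ∈ R, if M *ᵥ r ∈ C then 1 else 0 := by
    intro M
    rw [X, card_filter]
  simp_rw [h1]
  rw [sum_comm]
  rw [sum_congr rfl (g := fun _ => C.card * Fintype.card F ^ 6)]
  · rw [sum_const, smul_eq_mul]
  · intro r hr
    rw [← card_filter]
    have hl : LinearIndependent F ![r] := by
      have := hR0 r hr
      rw [linearIndependent_unique_iff]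
      simpa using this
    have h := card_eval_all (by norm_num) ![r] hl C
    simpa using h

theorem sum_X2 (R C : Finset (Fin 3 → F))
    (hR : ∀ r ∈ R, ∀ r' ∈ R, r ≠ r' → LinearIndependent F ![r, r']) :
    ∑ M : Matrix (Fin 3) (Fin 3) F, ((X R C M : ℤ) * (X R C M - 1)) =
      R.card * (R.card - 1) * (C.card ^ 2 * Fintype.card F ^ 3) := by
  have h1 : ∀ M : Matrix (Fin 3) (Fin 3) F, ((X R C M : ℤ) * (X R C M - 1)) =
      ∑ rr ∈ R.offDiag, if (M *ᵥ rr.1 ∈ C ∧ M *ᵥ rr.2 ∈ C) then 1 else 0 := by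
    intro M
    have h2 : (R.filter fun r => M *ᵥ r ∈ C).offDiag =
        R.offDiag.filter fun rr => (M *ᵥ rr.1 ∈ C ∧ M *ᵥ rr.2 ∈ C) := by
      ext rr
      simp only [mem_offDiag, mem_filter]
      tauto
    have h3 := offDiag_card (R.filter fun r => M *ᵥ r ∈ C)
    rw [h2, card_filter] at h3
    have h4 : (X R C M) ≤ X R C M * X R C M := by nlinarith [Nat.zero_le (X R C M)]
    have h5 : (∑ rr ∈ R.offDiag, if (M *ᵥ rr.1 ∈ C ∧ M *ᵥ rr.2 ∈ C) then 1 else 0 : ℕ) =
        X R C M * X R C M - X R C M := h3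
    zify [h4] at h5
    rw [h5]
    ring
  simp_rw [h1]
  rw [sum_comm]
  rw [sum_congr rfl (g := fun _ => (C.card ^ 2 * Fintype.card F ^ 3 : ℤ))]
  · rw [sum_const, nsmul_eq_mul]
    have h3 := offDiag_card R
    have h4 : R.card ≤ R.card * R.card := by nlinarith [Nat.zero_le R.card]
    zify [h4] at h3
    rw [h3]
    ring
  · intro rr hrr
    rw [mem_offDiag] at hrr
    have h := card_eval_all (by norm_num) ![rr.1, rr.2] (hR _ hrr.1 _ hrr.2.1 hrr.2.2) C
    simp only [Fin.forall_fin_two] at h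
    simp at h
    have h5 : (∑ M : Matrix (Fin 3) (Fin 3) F, if (M *ᵥ rr.1 ∈ C ∧ M *ᵥ rr.2 ∈ C) then 1 else 0 : ℕ) =
        C.card ^ 2 * Fintype.card F ^ 3 := by
      rw [← card_filter]
      exact h
    exact_mod_cast h5

theorem erase_erase_card {α : Type*} [DecidableEq α] (S : Finset α) {a b : α} (ha : a ∈ S) (hb : b ∈ S)
    (hab : a ≠ b) : (((S.erase a).erase b).card : ℤ) = S.card - 2 := by
  have h1 : b ∈ S.erase a := mem_erase.2 ⟨hab.symm, hb⟩
  rw [card_erase_of_mem h1, card_erase_of_mem ha]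
  have h2 : 1 < S.card := one_lt_card.2 ⟨a, ha, b, hb, hab⟩
  omega

theorem sum_X3_eq (R C : Finset (Fin 3 → F)) :
    ∑ M : Matrix (Fin 3) (Fin 3) F, ((X R C M : ℤ) * (X R C M - 1) * (X R C M - 2)) =
      ∑ rr ∈ R.offDiag, ∑ r ∈ (R.erase rr.1).erase rr.2,
        ((univ.filter fun M : Matrix (Fin 3) (Fin 3) F =>
          M *ᵥ rr.1 ∈ C ∧ M *ᵥ rr.2 ∈ C ∧ M *ᵥ r ∈ C).card : ℤ) := by
  have h1 : ∀ M : Matrix (Fin 3) (Fin 3) F, ((X R C M : ℤ) * (X R C M - 1) * (X R C M - 2)) =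
      ∑ rr ∈ R.offDiag, ∑ r ∈ (R.erase rr.1).erase rr.2,
        if (M *ᵥ rr.1 ∈ C ∧ M *ᵥ rr.2 ∈ C ∧ M *ᵥ r ∈ C) then (1 : ℤ) else 0 := by
    intro M
    set S := R.filter fun r => M *ᵥ r ∈ C with hS
    have h2 : S.offDiag =
        R.offDiag.filter fun rr => (M *ᵥ rr.1 ∈ C ∧ M *ᵥ rr.2 ∈ C) := by
      ext rr
      simp only [hS, mem_offDiag, mem_filter]
      tauto
    have h3 : ∀ rr ∈ R.offDiag, (∑ r ∈ (R.erase rr.1).erase rr.2,
        if (M *ᵥ rr.1 ∈ C ∧ M *ᵥ rr.2 ∈ C ∧ M *ᵥ r ∈ C) then (1 : ℤ) else 0) =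
        if (M *ᵥ rr.1 ∈ C ∧ M *ᵥ rr.2 ∈ C) then ((X R C M : ℤ) - 2) else 0 := by
      intro rr hrr
      rw [mem_offDiag] at hrr
      split_ifs with h
      · have h4 : ((S.erase rr.1).erase rr.2) =
            ((R.erase rr.1).erase rr.2).filter fun r => M *ᵥ r ∈ C := by
          ext r
          simp only [hS, mem_erase, mem_filter]
          tauto
        have h5 := erase_erase_card S (a := rr.1) (b := rr.2) (by simp [hS, hrr.1, h.1])
          (by simp [hS, hrr.2.1, h.2]) hrr.2.2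
        rw [h4, card_filter] at h5
        push_cast at h5
        simp only [h.1, h.2, true_and]
        rw [h5]
        rfl
      · apply sum_eq_zero
        intro r _
        rw [if_neg]
        tauto
    rw [sum_congr rfl h3, ← sum_filter, ← h2, sum_const, nsmul_eq_mul]
    have h6 := offDiag_card S
    have h7 : S.card ≤ S.card * S.card := by nlinarith [Nat.zero_le S.card]
    zify [h7] at h6
    rw [h6]
    show ((S.card : ℤ) * (S.card - 1) * (S.card - 2)) = (S.card * S.card - S.card) * (S.card - 2)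
    ring
  simp_rw [h1]
  rw [sum_comm]
  refine sum_congr rfl fun rr _ => ?_
  rw [sum_comm]
  refine sum_congr rfl fun r _ => ?_
  rw [card_filter]
  push_cast
  rfl

end Pool.Agent.K4H73.Blocking
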