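import Pool.Agent.K4H73.Blocking.Triple

/-!
# The blocking set: representatives, cone, and the counts for `p ≥ 5`
-/

set_option autoImplicit false

namespace Pool.Agent.K4H73.Blocking

open Finset Matrix

/-- membership in the cone over the blocking set, in coordinates -/
def InC {F : Type*} [Field F] (p : ℕ) (w : Fin 3 → F) : Prop :=
  (w 0 ≠ 0 ∧ w 2 * w 0 ^ (p - 1) = w 1 ^ p) ∨
    (w 0 = 0 ∧ w 1 ≠ 0 ∧ w 2 ^ (p ^ 2 + p + 1) = w 1 ^ (p ^ 2 + p + 1))

variable {F : Type*} [Field F] [Fintype F] [DecidableEq F]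

/-- the affine representatives -/
def R1 (F : Type*) [Field F] [Fintype F] [DecidableEq F] (p : ℕ) : Finset (Fin 3 → F) :=
  univ.image fun x : F => ![1, x, x ^ p]

/-- the representatives at infinity -/
def R2 (F : Type*) [Field F] [Fintype F] [DecidableEq F] (p : ℕ) : Finset (Fin 3 → F) :=
  (univ.filter fun y : F => y ^ (p ^ 2 + p + 1) = 1).image fun y => ![0, 1, y]

/-- the representatives -/
def RR (F : Type*) [Field F] [Fintype F] [DecidableEq F] (p : ℕ) : Finset (Fin 3 → F) :=
  R1 F p ∪ R2 F p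

open Classical in
/-- the cone -/
noncomputable def CC (F : Type*) [Field F] [Fintype F] [DecidableEq F] (p : ℕ) :
    Finset (Fin 3 → F) := univ.filter fun w => InC p w

theorem mem_CC {p : ℕ} {w : Fin 3 → F} : w ∈ CC F p ↔ InC p w := by simp [CC]

theorem mem_R1 {p : ℕ} {w : Fin 3 → F} : w ∈ R1 F p ↔ ∃ x : F, ![1, x, x ^ p] = w := by
  simp [R1]

theorem mem_R2 {p : ℕ} {w : Fin 3 → F} :
    w ∈ R2 F p ↔ ∃ y : F, y ^ (p ^ 2 + p + 1) = 1 ∧ ![0, 1, y] = w := by
  simp [R2]

omit [Fintype F] [DecidableEq F] in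
theorem lin_pair {v w : Fin 3 → F} (h : ∀ a b : F, (∀ i, a * v i + b * w i = 0) → a = 0 ∧ b = 0) :
    LinearIndependent F ![v, w] := by
  rw [LinearIndependent.pair_iff]
  intro a b hab
  refine h a b fun i => ?_
  have := congrFun hab i
  simpa using this

theorem isCone (p : ℕ) (hp : 1 ≤ p) : IsCone (RR F p) (CC F p) := by
  refine ⟨?_, ?_, ?_⟩
  · intro r hr h0
    rw [RR, mem_union, mem_R1, mem_R2] at hr
    rcases hr with ⟨x, rfl⟩ | ⟨y, _, rfl⟩
    · have := congrFun h0 0
      simp at this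
    · have := congrFun h0 1
      simp at this
  · intro r hr r' hr' hne
    rw [RR, mem_union, mem_R1, mem_R2] at hr hr'
    apply lin_pair
    intro a b hab
    have e0 := hab 0
    have e1 := hab 1
    have e2 := hab 2
    rcases hr with ⟨x, rfl⟩ | ⟨y, _, rfl⟩ <;> rcases hr' with ⟨x', rfl⟩ | ⟨y', _, rfl⟩ <;>
      simp at e0 e1 e2
    · have hb : b = -a := by linear_combination e0
      subst hb
      have hx : x ≠ x' := fun h => hne (by rw [h])
      have h3 : a * (x - x') = 0 := by linear_combination e1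
      have ha : a = 0 := (mul_eq_zero.1 h3).resolve_right (sub_ne_zero.2 hx)
      simp [ha]
    · subst e0
      simp at e1
      simp [e1]
    · subst e0
      simp at e1
      simp [e1]
    · have hb : b = -a := by linear_combination e1
      subst hb
      have hx : y ≠ y' := fun h => hne (by rw [h])
      have h3 : a * (y - y') = 0 := by linear_combination e2
      have ha : a = 0 := (mul_eq_zero.1 h3).resolve_right (sub_ne_zero.2 hx)
      simp [ha]
  · intro w
    simp only [mem_CC, InC]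
    constructor
    · rintro (⟨h0, h1⟩ | ⟨h0, h1, h2⟩)
      · refine ⟨![1, w 1 / w 0, (w 1 / w 0) ^ p], ?_, w 0, h0, ?_⟩
        · rw [RR, mem_union, mem_R1]
          exact Or.inl ⟨_, rfl⟩
        · funext i
          fin_cases i
          · simp
          · simp [mul_div_cancel₀ _ h0]
          · simp only [Fin.reduceFinMk, Pi.smul_apply, Matrix.cons_val, smul_eq_mul]
            rw [div_pow, ← h1]
            have : w 0 ^ p = w 0 * w 0 ^ (p - 1) := by
              rw [← pow_succ']; congr 1; omega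
            rw [this]
            have h3 : w 0 ^ (p - 1) ≠ 0 := pow_ne_zero _ h0
            field_simp
      · refine ⟨![0, 1, w 2 / w 1], ?_, w 1, h1, ?_⟩
        · rw [RR, mem_union, mem_R2]
          refine Or.inr ⟨_, ?_, rfl⟩
          rw [div_pow, h2, div_self (pow_ne_zero _ h1)]
        · funext i
          fin_cases i
          · simp [h0]
          · simp
          · simp [mul_div_cancel₀ _ h1]
    · rintro ⟨r, hr, c, hc, rfl⟩
      rw [RR, mem_union, mem_R1, mem_R2] at hr
      rcases hr with ⟨x, rfl⟩ | ⟨y, hy, rfl⟩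
      · left
        refine ⟨by simpa using hc, ?_⟩
        simp only [Pi.smul_apply, Matrix.cons_val, smul_eq_mul, cons_val_zero, cons_val_one, mul_one]
        have : c ^ p = c * c ^ (p - 1) := by
          rw [← pow_succ']; congr 1; omega
        rw [mul_pow, this]
        ring
      · right
        refine ⟨by simp, by simpa using hc, ?_⟩
        simp only [Pi.smul_apply, Matrix.cons_val, smul_eq_mul, cons_val_one, mul_one]
        rw [mul_pow, hy, mul_one]

theorem card_pow_eq (n : ℕ) (hn : 0 < n) (a : F) : (univ.filter fun x : F => x ^ n = a).card ≤ n := by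
  have h1 : (univ.filter fun x : F => x ^ n = a) = Polynomial.nthRootsFinset n a := by
    ext x
    rw [Polynomial.mem_nthRootsFinset hn]
    simp
  rw [h1, Polynomial.nthRootsFinset_def]
  exact (Multiset.toFinset_card_le _).trans (Polynomial.card_nthRoots n a)

theorem card_pow_eq_one (n : ℕ) (hn : 0 < n) (hd : n ∣ Fintype.card F - 1) :
    (univ.filter fun x : F => x ^ n = 1).card = n := by
  have h1 : (univ.filter fun x : F => x ^ n = 1) = Polynomial.nthRootsFinset n (1 : F) := by
    ext x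
    rw [Polynomial.mem_nthRootsFinset hn]
    simp
  rw [h1]
  obtain ⟨g, hg⟩ := IsCyclic.exists_generator (α := Fˣ)
  have ho : orderOf g = Fintype.card F - 1 := by
    rw [orderOf_eq_card_of_forall_mem_zpowers hg, Nat.card_eq_fintype_card, Fintype.card_units]
  obtain ⟨k, hk⟩ := hd
  have hpos : 0 < Fintype.card F - 1 := by
    rw [← ho]; exact orderOf_pos g
  have h2 : IsPrimitiveRoot (g : F) (Fintype.card F - 1) := by
    rw [IsPrimitiveRoot.coe_units_iff, ← ho]
    exact IsPrimitiveRoot.orderOf g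
  have h3 : IsPrimitiveRoot ((g : F) ^ k) n := h2.pow hpos (by rw [hk, mul_comm])
  exact h3.card_nthRootsFinset

section

variable (p : ℕ) (hp : p.Prime) (hF : Fintype.card F = p ^ 3)
include hp hF

theorem card_D : (univ.filter fun y : F => y ^ (p ^ 2 + p + 1) = 1).card = p ^ 2 + p + 1 := by
  apply card_pow_eq_one _ (by positivity)
  rw [hF]
  refine ⟨p - 1, ?_⟩
  have h1 := hp.one_lt
  obtain ⟨k, rfl⟩ : ∃ k, p = k + 1 := ⟨p - 1, by omega⟩
  simp only [Nat.add_sub_cancel]
  have : (k + 1) ^ 3 = ((k + 1) ^ 2 + (k + 1) + 1) * k + 1 := by ring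
  omega

theorem card_R1 : (R1 F p).card = p ^ 3 := by
  rw [R1, card_image_of_injective, card_univ, hF]
  intro x y h
  have := congrFun h 1
  simpa using this

theorem card_R2 : (R2 F p).card = p ^ 2 + p + 1 := by
  rw [R2, card_image_of_injective, card_D p hp hF]
  intro x y h
  have := congrFun h 2
  simpa using this

theorem card_RR : (RR F p).card = p ^ 3 + (p ^ 2 + p + 1) := by
  rw [RR, card_union_of_disjoint, card_R1 p hp hF, card_R2 p hp hF]
  rw [disjoint_left]
  intro w h1 h2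
  rw [mem_R1] at h1
  rw [mem_R2] at h2
  obtain ⟨x, rfl⟩ := h1
  obtain ⟨y, _, h⟩ := h2
  have := congrFun h 0
  simp at this

theorem frob (a b : F) : (a + b) ^ p = a ^ p + b ^ p := by
  have := Fact.mk hp
  have : CharP F p := charP_of_card_eq_prime_pow hF
  exact add_pow_char a b p

theorem frob_inj {a b : F} (h : a ^ p = b ^ p) : a = b := by
  have := Fact.mk hp
  have : CharP F p := charP_of_card_eq_prime_pow hF
  exact frobenius_inj F p h

theorem t_aff_aff (x y : F) (hxy : x ≠ y) :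
    t (CC F p) (![1, x, x ^ p], ![1, y, y ^ p]) ≤ p - 1 := by
  have hp1 := hp.one_lt
  have hsub : (univ.filter fun μ : F => μ ≠ 0 ∧ (![1, x, x ^ p] : Fin 3 → F) + μ • ![1, y, y ^ p] ∈ CC F p) ⊆
      univ.filter fun μ : F => μ ^ (p - 1) = 1 := by
    intro μ hμ
    simp only [mem_CC, mem_filter, mem_univ, true_and, InC, Pi.add_apply, Pi.smul_apply, Matrix.cons_val,
      smul_eq_mul, cons_val_zero, cons_val_one, mul_one] at hμ ⊢
    obtain ⟨h0, h⟩ := hμ
    have key : μ ^ p = μ := by
      rcases h with ⟨h1, h2⟩ | ⟨h1, _, _⟩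
      · have h3 : (x ^ p + μ * y ^ p) * (1 + μ) ^ p = (1 + μ) * (x + μ * y) ^ p := by
          have : (1 + μ) ^ p = (1 + μ) ^ (p - 1) * (1 + μ) := by
            rw [← pow_succ]; congr 1; omega
          rw [this, ← mul_assoc, h2]
          ring
        rw [frob p hp hF, frob p hp hF, one_pow, mul_pow] at h3
        have h4 : (μ ^ p - μ) * (x ^ p - y ^ p) = 0 := by linear_combination h3
        rcases mul_eq_zero.1 h4 with h5 | h5
        · exact sub_eq_zero.1 h5
        · exact absurd (frob_inj p hp hF (sub_eq_zero.1 h5)) hxy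
      · have h2 : (1 + μ) ^ p = 0 := by rw [h1, zero_pow hp.pos.ne']
        rw [frob p hp hF, one_pow] at h2
        linear_combination h2 - h1
    have h5 : μ ^ p = μ ^ (p - 1) * μ := by
      rw [← pow_succ]; congr 1; omega
    rw [h5] at key
    exact mul_right_cancel₀ h0 (by rw [key, one_mul])
  exact (card_le_card hsub).trans (card_pow_eq _ (by omega) 1)

theorem t_aff_inf (x y : F) :
    t (CC F p) (![1, x, x ^ p], ![0, 1, y]) ≤ p - 1 := by
  have hp1 := hp.one_lt
  have hsub : (univ.filter fun μ : F => μ ≠ 0 ∧ (![1, x, x ^ p] : Fin 3 → F) + μ • ![0, 1, y] ∈ CC F p) ⊆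
      univ.filter fun μ : F => μ ^ (p - 1) = y := by
    intro μ hμ
    simp only [mem_CC, mem_filter, mem_univ, true_and, InC, Pi.add_apply, Pi.smul_apply, Matrix.cons_val,
      smul_eq_mul, cons_val_zero, cons_val_one, mul_one, mul_zero, add_zero] at hμ ⊢
    obtain ⟨h0, h⟩ := hμ
    rcases h with ⟨h1, h2⟩ | ⟨h1, _, _⟩
    · rw [frob p hp hF, one_pow, mul_one] at h2
      have h5 : μ ^ p = μ * μ ^ (p - 1) := by
        rw [← pow_succ']; congr 1; omega
      rw [h5] at h2
      exact (mul_left_cancel₀ h0 (by linear_combination h2)).symm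
    · exact absurd h1 one_ne_zero
  exact (card_le_card hsub).trans (card_pow_eq _ (by omega) y)

theorem t_inf_aff (x y : F) (hy : y ≠ 0) :
    t (CC F p) (![0, 1, y], ![1, x, x ^ p]) ≤ p - 1 := by
  have hp1 := hp.one_lt
  have hsub : (univ.filter fun μ : F => μ ≠ 0 ∧ (![0, 1, y] : Fin 3 → F) + μ • ![1, x, x ^ p] ∈ CC F p) ⊆
      univ.filter fun μ : F => μ ^ (p - 1) = y⁻¹ := by
    intro μ hμ
    simp only [mem_CC, mem_filter, mem_univ, true_and, InC, Pi.add_apply, Pi.smul_apply, Matrix.cons_val,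
      smul_eq_mul, cons_val_zero, cons_val_one, mul_one, zero_add] at hμ ⊢
    obtain ⟨h0, h⟩ := hμ
    rcases h with ⟨h1, h2⟩ | ⟨h1, _, _⟩
    · rw [frob p hp hF, one_pow, mul_pow] at h2
      have h5 : μ ^ p = μ * μ ^ (p - 1) := by
        rw [← pow_succ']; congr 1; omega
      rw [h5] at h2
      have h6 : μ ^ (p - 1) * y = 1 := by linear_combination h2
      exact eq_inv_of_mul_eq_one_left h6
    · exact absurd h1 h0
  exact (card_le_card hsub).trans (card_pow_eq _ (by omega) _)

theorem t_inf_inf (y y' : F) (hy : y ^ (p ^ 2 + p + 1) = 1) (hy' : y' ^ (p ^ 2 + p + 1) = 1)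
    (hyy : y ≠ y') : t (CC F p) (![0, 1, y], ![0, 1, y']) ≤ p ^ 2 + p - 1 := by
  have hp1 := hp.one_lt
  set Y := (univ.filter fun z : F => z ^ (p ^ 2 + p + 1) = 1) with hY
  have hcard : ((Y.erase y).erase y').card = p ^ 2 + p - 1 := by
    rw [card_erase_of_mem, card_erase_of_mem, hY, card_D p hp hF]
    · omega
    · simp [hY, hy]
    · rw [mem_erase]
      exact ⟨hyy.symm, by simp [hY, hy']⟩
  rw [← hcard, t]
  refine card_le_card_of_injOn (fun μ => (y + μ * y') / (1 + μ)) ?_ ?_
  · intro μ hμ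
    simp only [mem_CC, coe_filter, Set.mem_ofPred_eq, mem_filter, mem_univ, true_and, InC, Pi.add_apply,
      Pi.smul_apply, Matrix.cons_val, smul_eq_mul, cons_val_zero, cons_val_one, mul_one, mul_zero,
      add_zero] at hμ
    obtain ⟨h0, h⟩ := hμ
    rcases h with ⟨h1, h2⟩ | h
    · exact absurd rfl h1
    · obtain ⟨h1, h2⟩ : 1 + μ ≠ 0 ∧
          (y + μ * y') ^ (p ^ 2 + p + 1) = (1 + μ) ^ (p ^ 2 + p + 1) := by simpa using h
      simp only [mem_coe, mem_erase, ne_eq, hY, mem_filter, mem_univ, true_and]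
      refine ⟨?_, ?_, ?_⟩
      · intro h
        rw [div_eq_iff h1] at h
        exact hyy (by linear_combination h)
      · intro h
        rw [div_eq_iff h1] at h
        have h3 : μ * (y' - y) = 0 := by linear_combination h
        rcases mul_eq_zero.1 h3 with h4 | h4
        · exact h0 h4
        · exact hyy (sub_eq_zero.1 h4).symm
      · rw [div_pow, h2, div_self (pow_ne_zero _ h1)]
  · intro μ hμ ν hν e
    simp only [mem_CC, coe_filter, Set.mem_ofPred_eq, mem_filter, mem_univ, true_and, InC, Pi.add_apply,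
      Pi.smul_apply, Matrix.cons_val, smul_eq_mul, cons_val_zero, cons_val_one, mul_one, mul_zero,
      add_zero] at hμ hν
    have h1 : 1 + μ ≠ 0 := by
      rcases hμ.2 with ⟨h, _⟩ | h
      · exact absurd rfl h
      · intro h0
        simp [h0] at h
    have h2 : 1 + ν ≠ 0 := by
      rcases hν.2 with ⟨h, _⟩ | h
      · exact absurd rfl h
      · intro h0
        simp [h0] at h
    simp only at e
    rw [div_eq_div_iff h1 h2] at e
    have h3 : (μ - ν) * (y' - y) = 0 := by linear_combination e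
    rcases mul_eq_zero.1 h3 with h4 | h4
    · exact sub_eq_zero.1 h4
    · exact absurd (sub_eq_zero.1 h4).symm hyy

theorem sum_t : ∑ rr ∈ (RR F p).offDiag, t (CC F p) rr ≤
    (RR F p).offDiag.card * (p - 1) + (R2 F p).offDiag.card * p ^ 2 := by
  have hp1 := hp.one_lt
  have h1 : ∀ rr ∈ (RR F p).offDiag, t (CC F p) rr ≤
      (p - 1) + if rr ∈ (R2 F p).offDiag then p ^ 2 else 0 := by
    rintro ⟨r, r'⟩ hrr
    rw [mem_offDiag] at hrr
    obtain ⟨hr, hr', hne⟩ := hrr
    simp only at hr hr' hne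
    rw [RR, mem_union, mem_R1, mem_R2] at hr hr'
    rcases hr with ⟨x, rfl⟩ | ⟨y, hy, rfl⟩ <;> rcases hr' with ⟨x', rfl⟩ | ⟨y', hy', rfl⟩
    · exact (t_aff_aff p hp hF x x' (fun h => hne (by rw [h]))).trans (Nat.le_add_right _ _)
    · exact (t_aff_inf p hp hF x y').trans (Nat.le_add_right _ _)
    · refine (t_inf_aff p hp hF x' y ?_).trans (Nat.le_add_right _ _)
      rintro rfl
      simp at hy
    · rw [if_pos]
      · refine (t_inf_inf p hp hF y y' hy hy' (fun h => hne (by rw [h]))).trans ?_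
        omega
      · rw [mem_offDiag]
        exact ⟨mem_R2.2 ⟨y, hy, rfl⟩, mem_R2.2 ⟨y', hy', rfl⟩, hne⟩
  refine (sum_le_sum h1).trans ?_
  rw [sum_add_distrib, sum_const, smul_eq_mul, ← sum_filter, sum_const, smul_eq_mul]
  gcongr
  intro rr hrr
  exact (mem_filter.1 hrr).2

end

/-- **The case `p ≥ 5`.** -/
theorem exists_large (p : ℕ) (hp : p.Prime) (h5 : 5 ≤ p) (hF : Fintype.card F = p ^ 3) :
    ∃ M : Matrix (Fin 3) (Fin 3) F, IsUnit M ∧ ∀ r ∈ RR F p, ¬ InC p (M *ᵥ r) := by
  have hcone : IsCone (RR F p) (CC F p) := isCone p (by omega)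
  obtain ⟨s, rfl⟩ : ∃ s, p = s + 5 := ⟨p - 5, by omega⟩
  have hT := sum_t (s + 5) hp hF
  rw [offDiag_card, offDiag_card, card_RR _ hp hF, card_R2 _ hp hF] at hT
  have e1 : ((s + 5) ^ 3 + ((s + 5) ^ 2 + (s + 5) + 1)) * ((s + 5) ^ 3 + ((s + 5) ^ 2 + (s + 5) + 1)) -
      ((s + 5) ^ 3 + ((s + 5) ^ 2 + (s + 5) + 1)) =
      ((s + 5) ^ 3 + ((s + 5) ^ 2 + (s + 5) + 1)) * ((s + 5) ^ 3 + ((s + 5) ^ 2 + (s + 5))) := by
    rw [Nat.sub_eq_iff_eq_add (Nat.le_mul_self _)]
    ring
  have e2 : ((s + 5) ^ 2 + (s + 5) + 1) * ((s + 5) ^ 2 + (s + 5) + 1) - ((s + 5) ^ 2 + (s + 5) + 1) =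
      ((s + 5) ^ 2 + (s + 5) + 1) * ((s + 5) ^ 2 + (s + 5)) := by
    rw [Nat.sub_eq_iff_eq_add (Nat.le_mul_self _)]
    ring
  rw [e1, e2, show s + 5 - 1 = s + 4 from rfl] at hT
  obtain ⟨M, hM, h⟩ := hcone.exists_matrix _ hT ((s + 5 : ℤ) ^ 3)
    ((s + 5 : ℤ) ^ 3 + ((s + 5 : ℤ) ^ 2 + (s + 5) + 1)) (by rw [hF]; push_cast; ring)
    (by rw [card_RR _ hp hF]; push_cast; ring) (by
      push_cast
      have hs : (0 : ℤ) ≤ s := Int.natCast_nonneg s
      generalize (s : ℤ) = x at hs
      ring_nf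
      positivity)
  exact ⟨M, hM, fun r hr hC => h r hr (mem_CC.2 hC)⟩

end Pool.Agent.K4H73.Blocking
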