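import Mathlib

/-!
# Counting matrices with prescribed images of independent vectors
-/

set_option autoImplicit false

namespace Pool.Agent.K4H73.Blocking

open Finset Matrix

/-- fibres of a surjective homomorphism of finite groups -/
theorem card_filter_hom {A B : Type*} [AddCommGroup A] [AddCommGroup B] [Fintype A] [Fintype B]
    [DecidableEq B] (φ : A →+ B) (hφ : Function.Surjective φ) (S : Finset B) :
    (univ.filter fun a => φ a ∈ S).card * Fintype.card B = S.card * Fintype.card A := by
  classical
  have hfib : ∀ b : B, (univ.filter fun a => φ a = b).card = (univ.filter fun a => φ a = 0).card := by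
    intro b
    obtain ⟨a0, ha0⟩ := hφ b
    refine Finset.card_bij' (fun a _ => a - a0) (fun a _ => a + a0) ?_ ?_ ?_ ?_
    · intro a ha
      simp only [mem_filter, mem_univ, true_and] at ha ⊢
      rw [map_sub, ha, ha0, sub_self]
    · intro a ha
      simp only [mem_filter, mem_univ, true_and] at ha ⊢
      rw [map_add, ha, ha0, zero_add]
    · intro a _
      simp
    · intro a _
      simp
  have h1 : ∀ S : Finset B, (univ.filter fun a => φ a ∈ S).card =
      S.card * (univ.filter fun a => φ a = 0).card := by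
    intro S
    rw [Finset.card_eq_sum_card_fiberwise (f := φ) (t := S)]
    · rw [Finset.sum_congr rfl (g := fun _ => (univ.filter fun a => φ a = 0).card)]
      · rw [sum_const, smul_eq_mul]
      · intro b hb
        rw [← hfib b]
        congr 1
        ext a
        simp only [mem_filter, mem_univ, true_and]
        constructor
        · exact fun h => h.2
        · exact fun h => ⟨h ▸ hb, h⟩
    · intro a ha
      simpa using ha
  have h2 := h1 univ
  simp only [mem_univ, filter_true, card_univ] at h2
  rw [h1 S, h2]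
  ring

variable {F : Type*} [Field F] [Fintype F] [DecidableEq F]

/-- the map `M ↦ (M v₁, …, M v_k)` -/
def evalHom {k : ℕ} (v : Fin k → (Fin 3 → F)) :
    Matrix (Fin 3) (Fin 3) F →+ (Fin k → (Fin 3 → F)) where
  toFun M := fun i => M *ᵥ v i
  map_zero' := by ext i; simp
  map_add' := by intro M N; ext i; simp [Matrix.add_mulVec]

theorem evalHom_surjective {k : ℕ} (v : Fin k → (Fin 3 → F)) (hv : LinearIndependent F v) :
    Function.Surjective (evalHom v) := by
  intro w
  have hker : LinearMap.ker (Finsupp.linearCombination F v) = ⊥ := by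
    rw [LinearMap.ker_eq_bot]
    exact hv
  obtain ⟨g, hg⟩ := (Finsupp.linearCombination F v).exists_leftInverse_of_injective hker
  let f : (Fin 3 → F) →ₗ[F] (Fin 3 → F) := (Finsupp.linearCombination F w) ∘ₗ g
  refine ⟨LinearMap.toMatrix' f, ?_⟩
  funext i
  show (LinearMap.toMatrix' f) *ᵥ v i = w i
  rw [LinearMap.toMatrix'_mulVec]
  have h1 : g (v i) = Finsupp.single i 1 := by
    have := congrArg (fun h => h (Finsupp.single i 1)) hg
    simpa using this
  simp [f, h1]

theorem card_eval {k : ℕ} (v : Fin k → (Fin 3 → F)) (hv : LinearIndependent F v)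
    (S : Finset (Fin k → (Fin 3 → F))) :
    (univ.filter fun M : Matrix (Fin 3) (Fin 3) F => (fun i => M *ᵥ v i) ∈ S).card *
      Fintype.card F ^ (3 * k) = S.card * Fintype.card F ^ 9 := by
  have h := card_filter_hom (evalHom v) (evalHom_surjective v hv) S
  have h1 : Fintype.card (Fin k → (Fin 3 → F)) = Fintype.card F ^ (3 * k) := by
    rw [Fintype.card_fun, Fintype.card_fun, Fintype.card_fin, Fintype.card_fin, ← pow_mul]
  have h2 : Fintype.card (Matrix (Fin 3) (Fin 3) F) = Fintype.card F ^ 9 := by
    rw [show Fintype.card (Matrix (Fin 3) (Fin 3) F) = Fintype.card (Fin 3 → Fin 3 → F) from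
      Fintype.card_congr (Matrix.of.symm), Fintype.card_fun, Fintype.card_fun, Fintype.card_fin,
      ← pow_mul]
  rw [h1, h2] at h
  exact h

theorem card_eval_all {k : ℕ} (hk : k ≤ 3) (v : Fin k → (Fin 3 → F)) (hv : LinearIndependent F v)
    (C : Finset (Fin 3 → F)) :
    (univ.filter fun M : Matrix (Fin 3) (Fin 3) F => ∀ i, M *ᵥ v i ∈ C).card =
      C.card ^ k * Fintype.card F ^ (9 - 3 * k) := by
  have hq : 0 < Fintype.card F := Fintype.card_pos
  have h := card_eval v hv (Fintype.piFinset fun _ => C)
  have h2 : (univ.filter fun M : Matrix (Fin 3) (Fin 3) F =>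
      (fun i => M *ᵥ v i) ∈ (Fintype.piFinset fun _ => C)) =
      (univ.filter fun M : Matrix (Fin 3) (Fin 3) F => ∀ i, M *ᵥ v i ∈ C) := by
    ext M
    simp [Fintype.mem_piFinset]
  rw [h2, Fintype.card_piFinset, prod_const, card_univ, Fintype.card_fin] at h
  have h3 : Fintype.card F ^ 9 = Fintype.card F ^ (9 - 3 * k) * Fintype.card F ^ (3 * k) := by
    rw [← pow_add]; congr 1; omega
  rw [h3, ← mul_assoc] at h
  exact Nat.eq_of_mul_eq_mul_right (by positivity) h

theorem card_eval_two (v₁ v₂ : Fin 3 → F) (hv : LinearIndependent F ![v₁, v₂])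
    (S : Finset ((Fin 3 → F) × (Fin 3 → F))) :
    (univ.filter fun M : Matrix (Fin 3) (Fin 3) F => (M *ᵥ v₁, M *ᵥ v₂) ∈ S).card =
      S.card * Fintype.card F ^ 3 := by
  have hq : 0 < Fintype.card F := Fintype.card_pos
  let e : ((Fin 3 → F) × (Fin 3 → F)) ↪ (Fin 2 → (Fin 3 → F)) :=
    ⟨fun w => ![w.1, w.2], fun a b h => by
      have h0 := congrFun h 0
      have h1 := congrFun h 1
      simp at h0 h1
      exact Prod.ext h0 h1⟩
  have h := card_eval ![v₁, v₂] hv (S.map e)
  rw [card_map] at h
  have h2 : (univ.filter fun M : Matrix (Fin 3) (Fin 3) F =>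
        (fun i => M *ᵥ (![v₁, v₂] : Fin 2 → (Fin 3 → F)) i) ∈ S.map e) =
      (univ.filter fun M : Matrix (Fin 3) (Fin 3) F => (M *ᵥ v₁, M *ᵥ v₂) ∈ S) := by
    ext M
    simp only [mem_filter, mem_univ, true_and, mem_map]
    constructor
    · rintro ⟨a, ha, hb⟩
      have h0 := congrFun hb 0
      have h1 := congrFun hb 1
      simp [e] at h0 h1
      rw [← h0, ← h1]
      exact ha
    · intro h
      refine ⟨_, h, ?_⟩
      funext i
      fin_cases i <;> rfl
  rw [h2] at h
  have h3 : Fintype.card F ^ 9 = Fintype.card F ^ 3 * Fintype.card F ^ (3 * 2) := by ring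
  rw [h3, ← mul_assoc] at h
  exact Nat.eq_of_mul_eq_mul_right (by positivity) h

/-- number of singular matrices -/
theorem card_singular (F : Type*) [Field F] [Fintype F] [DecidableEq F] :
    ((univ.filter fun M : Matrix (Fin 3) (Fin 3) F => ¬ IsUnit M).card : ℤ) =
      (Fintype.card F : ℤ) ^ 9 - ((Fintype.card F : ℤ) ^ 3 - 1) *
        ((Fintype.card F : ℤ) ^ 3 - Fintype.card F) *
        ((Fintype.card F : ℤ) ^ 3 - (Fintype.card F : ℤ) ^ 2) := by
  have hq : 1 ≤ Fintype.card F := Fintype.card_pos
  have h1 : (univ.filter fun M : Matrix (Fin 3) (Fin 3) F => IsUnit M).card =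
      Nat.card (GL (Fin 3) F) := by
    rw [Nat.card_eq_fintype_card, ← Finset.card_univ (α := GL (Fin 3) F)]
    symm
    refine Finset.card_bij (fun g _ => (g : Matrix (Fin 3) (Fin 3) F)) ?_ ?_ ?_
    · intro g _
      simp
    · intro g _ g' _ h
      exact Units.ext h
    · intro M hM
      simp only [mem_filter, mem_univ, true_and] at hM
      obtain ⟨u, hu⟩ := hM
      exact ⟨u, mem_univ _, hu⟩
  have h2 := Finset.card_filter_add_card_filter_not (s := (univ : Finset (Matrix (Fin 3) (Fin 3) F)))
    (fun M => IsUnit M)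
  have h3 : (univ : Finset (Matrix (Fin 3) (Fin 3) F)).card = Fintype.card F ^ 9 := by
    rw [card_univ, show Fintype.card (Matrix (Fin 3) (Fin 3) F) = Fintype.card (Fin 3 → Fin 3 → F) from
      Fintype.card_congr (Matrix.of.symm), Fintype.card_fun, Fintype.card_fun, Fintype.card_fin,
      ← pow_mul]
  rw [h3, h1, Matrix.card_GL_field] at h2
  have h4 : (∏ i : Fin 3, (Fintype.card F ^ 3 - Fintype.card F ^ (i : ℕ)) : ℕ) =
      (Fintype.card F ^ 3 - 1) * (Fintype.card F ^ 3 - Fintype.card F) *
        (Fintype.card F ^ 3 - Fintype.card F ^ 2) := by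
    simp [Fin.prod_univ_three]
  rw [h4] at h2
  have e1 : 1 ≤ Fintype.card F ^ 3 := Nat.one_le_pow _ _ hq
  have e2 : Fintype.card F ≤ Fintype.card F ^ 3 := Nat.le_self_pow (by norm_num) _
  have e3 : Fintype.card F ^ 2 ≤ Fintype.card F ^ 3 := Nat.pow_le_pow_right hq (by norm_num)
  zify [e1, e2, e3] at h2
  linarith

end Pool.Agent.K4H73.Blocking
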