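import Pool.Agent.K4H73.Blocking.Conc

/-!
# The cases `p = 2` and `p = 3`
-/

set_option autoImplicit false

namespace Pool.Agent.K4H73.Blocking

open Finset Matrix

section two

theorem exists_two {F : Type*} [Field F] [Fintype F] [DecidableEq F] (hF : Fintype.card F = 2 ^ 3) :
    ∃ M : Matrix (Fin 3) (Fin 3) F, IsUnit M ∧ ∀ r ∈ RR F 2, ¬ InC 2 (M *ᵥ r) := by
  obtain ⟨g, hg0, hg1⟩ : ∃ g : F, g ≠ 0 ∧ g ≠ 1 := by
    by_contra h
    push Not at h
    have h1 : (univ : Finset F) ⊆ {0, 1} := by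
      intro x _
      by_cases hx : x = 0
      · simp [hx]
      · simp [h x hx]
    have h2 := card_le_card h1
    rw [card_univ, hF] at h2
    have h3 : ({0, 1} : Finset F).card ≤ 2 := card_le_two
    omega
  refine ⟨!![0, 0, 1; 0, 1, 0; g, 0, 0], ?_, ?_⟩
  · rw [Matrix.isUnit_iff_isUnit_det, Matrix.det_fin_three]
    simp [hg0]
  · intro r hr
    rw [RR, mem_union, mem_R1, mem_R2] at hr
    rcases hr with ⟨x, rfl⟩ | ⟨y, hy, rfl⟩
    · have e : (!![0, 0, 1; 0, 1, 0; g, 0, 0] : Matrix (Fin 3) (Fin 3) F) *ᵥ ![1, x, x ^ 2] =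
          ![x ^ 2, x, g] := by
        funext i
        fin_cases i <;> simp [Matrix.mulVec, dotProduct, Fin.sum_univ_three]
      rw [e, InC]
      simp only [Matrix.cons_val_zero, Matrix.cons_val_one, Matrix.cons_val]
      rintro (⟨h1, h2⟩ | ⟨h1, h2, _⟩)
      · have h3 : (g - 1) * x ^ 2 = 0 := by
          simp at h2
          linear_combination h2
        rcases mul_eq_zero.1 h3 with h4 | h4
        · exact hg1 (sub_eq_zero.1 h4)
        · exact h1 h4
      · exact h2 (pow_eq_zero_iff (by norm_num) |>.1 h1)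
    · have e : (!![0, 0, 1; 0, 1, 0; g, 0, 0] : Matrix (Fin 3) (Fin 3) F) *ᵥ ![0, 1, y] =
          ![y, 1, 0] := by
        funext i
        fin_cases i <;> simp [Matrix.mulVec, dotProduct, Fin.sum_univ_three]
      rw [e, InC]
      simp only [Matrix.cons_val_zero, Matrix.cons_val_one, Matrix.cons_val]
      rintro (⟨_, h2⟩ | ⟨h1, _, _⟩)
      · simp at h2
      · rw [h1] at hy
        simp at hy

end two

section three

/-- elements of `𝔽₂₇ = 𝔽₃[α]`, `α ^ 3 = α - 1` -/
abbrev T27 : Type := ZMod 3 × ZMod 3 × ZMod 3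

/-- multiplication of `𝔽₂₇` -/
def mu (u v : T27) : T27 :=
  (u.1 * v.1 - (u.2.1 * v.2.2 + u.2.2 * v.2.1),
    (u.1 * v.2.1 + u.2.1 * v.1) + (u.2.1 * v.2.2 + u.2.2 * v.2.1) - u.2.2 * v.2.2,
    (u.1 * v.2.2 + u.2.1 * v.2.1 + u.2.2 * v.1) + u.2.2 * v.2.2)

theorem mu_inv : ∀ u : T27, u ≠ 0 → ∃ v : T27, mu u v = (1, 0, 0) := by decide

theorem mu_no_root : ∀ x : T27,
    mu (0, 1, 0) (mu (mu x (mu x x)) (mu ((1, 0, 0) + x) ((1, 0, 0) + x))) ≠ (-1, 0, 0) := by
  decide

variable {F : Type*} [Field F] [Fintype F] [DecidableEq F]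

theorem exists_three (hF : Fintype.card F = 3 ^ 3) :
    ∃ M : Matrix (Fin 3) (Fin 3) F, IsUnit M ∧ ∀ r ∈ RR F 3, ¬ InC 3 (M *ᵥ r) := by
  have hpr : Nat.Prime 3 := by norm_num
  have := Fact.mk hpr
  have hch : CharP F 3 := charP_of_card_eq_prime_pow hF
  have h3 : (3 : F) = 0 := by
    have := CharP.cast_eq_zero F 3
    simpa using this
  have hfrob : ∀ a b : F, (a + b) ^ 3 = a ^ 3 + b ^ 3 := frob 3 hpr hF
  have h27 : ∀ x : F, x ^ 27 = x := by
    intro x
    have := FiniteField.pow_card x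
    rw [hF] at this
    simpa using this
  -- an element of trace one
  obtain ⟨u, hu⟩ : ∃ u : F, u ^ 9 + u ^ 3 + u = 1 := by
    obtain ⟨u, hu⟩ : ∃ u : F, u ^ 9 + u ^ 3 + u ≠ 0 := by
      by_contra h
      push Not at h
      let P : Polynomial F := Polynomial.X ^ 9 + Polynomial.X ^ 3 + Polynomial.X
      have hdeg : P.natDegree = 9 := by
        simp only [P]
        compute_degree!
      have hP : P ≠ 0 := by
        intro h0
        rw [h0] at hdeg
        simp at hdeg
      have h1 : (univ : Finset F) ⊆ P.roots.toFinset := by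
        intro x _
        rw [Multiset.mem_toFinset, Polynomial.mem_roots hP]
        simp [P, Polynomial.IsRoot, h x]
      have h2 := (card_le_card h1).trans (Multiset.toFinset_card_le _)
      have h4 := Polynomial.card_roots' P
      rw [card_univ, hF] at h2
      omega
    set y := u ^ 9 + u ^ 3 + u with hy
    have hy3 : y ^ 3 = y := by
      rw [hy, hfrob, hfrob, ← pow_mul, ← pow_mul]
      norm_num
      rw [h27]
      ring
    have hy2 : y ^ 2 = 1 := by
      have h5 : y * (y ^ 2 - 1) = 0 := by linear_combination hy3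
      rcases mul_eq_zero.1 h5 with h6 | h6
      · exact absurd h6 hu
      · exact sub_eq_zero.1 h6
    have hy9 : y ^ 9 = y := by
      have : y ^ 9 = (y ^ 3) ^ 3 := by ring
      rw [this, hy3, hy3]
    refine ⟨y * u, ?_⟩
    rw [mul_pow, mul_pow, hy9, hy3, ← mul_add, ← mul_add, ← hy, ← sq, hy2]
  obtain ⟨α, hα⟩ : ∃ α : F, α ^ 3 = α - 1 := by
    refine ⟨u ^ 3 + 2 * u ^ 9, ?_⟩
    have h8 : (2 : F) ^ 3 = 2 := by linear_combination 2 * h3
    rw [hfrob, mul_pow, h8, ← pow_mul, ← pow_mul]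
    norm_num
    rw [h27]
    linear_combination (-1 : F) * hu + (u) * h3
  let c : ZMod 3 →+* F := ZMod.castHom (dvd_refl 3) F
  let φ : T27 → F := fun t => c t.1 + c t.2.1 * α + c t.2.2 * α ^ 2
  have hadd : ∀ a b, φ (a + b) = φ a + φ b := by
    intro a b
    simp only [φ, Prod.fst_add, Prod.snd_add, map_add]
    ring
  have hmul : ∀ a b, φ (mu a b) = φ a * φ b := by
    intro a b
    simp only [φ, mu, map_add, map_sub, map_mul]
    linear_combination (-(c a.2.1 * c b.2.2 + c a.2.2 * c b.2.1) - c a.2.2 * c b.2.2 * α) * hα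
  have h1 : φ (1, 0, 0) = 1 := by simp [φ]
  have hne : ∀ a, a ≠ 0 → φ a ≠ 0 := by
    intro a ha h0
    obtain ⟨b, hb⟩ := mu_inv a ha
    have := hmul a b
    rw [hb, h1, h0, zero_mul] at this
    exact one_ne_zero this
  have hneg : ∀ a, φ (-a) = - φ a := by
    intro a
    simp only [φ, Prod.fst_neg, Prod.snd_neg, map_neg]
    ring
  have hinj : Function.Injective φ := by
    intro a b hab
    by_contra hne'
    refine hne (a + -b) ?_ ?_
    · intro h
      exact hne' (by rw [← sub_eq_add_neg, sub_eq_zero] at h; exact h)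
    · rw [hadd, hneg, hab, add_neg_cancel]
  have hbij : Function.Bijective φ := by
    rw [Fintype.bijective_iff_injective_and_card]
    refine ⟨hinj, ?_⟩
    rw [hF]
    simp [T27, ZMod.card]
  have key : ∀ x : F, α * (x ^ 3 * (1 + x) ^ 2) ≠ -1 := by
    intro x hx
    obtain ⟨t, rfl⟩ := hbij.2 x
    have h2 := mu_no_root t
    apply h2
    apply hinj
    have hm1 : φ (-1, 0, 0) = -1 := by simp [φ]
    have hα' : φ (0, 1, 0) = α := by simp [φ]
    rw [hm1, hmul, hmul, hmul, hmul, hmul, hadd, h1, hα', ← hx]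
    ring
  have hα0 : α ≠ 0 := by
    rintro rfl
    simp at hα
  have hN : α ^ 13 = -1 := by
    have h9 : α ^ 9 = α + 1 := by
      have : α ^ 9 = (α ^ 3) ^ 3 := by ring
      rw [this, hα, sub_eq_add_neg, hfrob, hα]
      linear_combination (-1 : F) * h3
    have : α ^ 13 = α ^ 9 * α ^ 3 * α := by ring
    rw [this, h9, hα]
    linear_combination hα
  refine ⟨!![1, 1, 0; 1, 0, 0; 0, 0, -α], ?_, ?_⟩
  · rw [Matrix.isUnit_iff_isUnit_det, Matrix.det_fin_three]
    simp [hα0]
  · intro r hr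
    rw [RR, mem_union, mem_R1, mem_R2] at hr
    rcases hr with ⟨x, rfl⟩ | ⟨y, hy, rfl⟩
    · have e : (!![1, 1, 0; 1, 0, 0; 0, 0, -α] : Matrix (Fin 3) (Fin 3) F) *ᵥ ![1, x, x ^ 3] =
          ![1 + x, 1, -α * x ^ 3] := by
        funext i
        fin_cases i <;> simp [Matrix.mulVec, dotProduct, Fin.sum_univ_three]
      rw [e, InC]
      simp only [Matrix.cons_val_zero, Matrix.cons_val_one, Matrix.cons_val]
      rintro (⟨h2, h4⟩ | ⟨h2, h4, h5⟩)
      · refine key x ?_
        norm_num at h4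
        linear_combination -h4
      · have hx : x = -1 := by linear_combination h2
        subst hx
        norm_num at h5
        rw [hN] at h5
        have : (2 : F) = 0 := by linear_combination -h5
        have h6 : (1 : F) = 0 := by linear_combination h3 - this
        exact one_ne_zero h6
    · have e : (!![1, 1, 0; 1, 0, 0; 0, 0, -α] : Matrix (Fin 3) (Fin 3) F) *ᵥ ![0, 1, y] =
          ![1, 0, -α * y] := by
        funext i
        fin_cases i <;> simp [Matrix.mulVec, dotProduct, Fin.sum_univ_three]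
      rw [e, InC]
      simp only [Matrix.cons_val_zero, Matrix.cons_val_one, Matrix.cons_val]
      rintro (⟨_, h4⟩ | ⟨h2, _, _⟩)
      · have hy0 : y ≠ 0 := by
          rintro rfl
          simp at hy
        simp at h4
        exact h4.elim hα0 hy0
      · exact one_ne_zero h2

end three

end Pool.Agent.K4H73.Blocking
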