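import Pool.Agent.K4H73.Blocking.Average

/-!
# The third moment and the existence of an invertible matrix
-/

set_option autoImplicit false

namespace Pool.Agent.K4H73.Blocking

open Finset Matrix

variable {F : Type*} [Field F] [Fintype F] [DecidableEq F]

/-- `C` is the set of the nonzero multiples of the vectors in `R`, which are nonzero and pairwise
not proportional -/
structure IsCone (R C : Finset (Fin 3 → F)) : Prop where
  ne : ∀ r ∈ R, r ≠ 0
  indep : ∀ r ∈ R, ∀ r' ∈ R, r ≠ r' → LinearIndependent F ![r, r']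
  mem : ∀ w, w ∈ C ↔ ∃ r ∈ R, ∃ c : F, c ≠ 0 ∧ w = c • r

/-- the number of the points of `C` on the line through `r₁`, `r₂`, other than these two -/
def t (C : Finset (Fin 3 → F)) (rr : (Fin 3 → F) × (Fin 3 → F)) : ℕ :=
  (univ.filter fun μ : F => μ ≠ 0 ∧ rr.1 + μ • rr.2 ∈ C).card

/-- the number of Schur pairs of `C` -/
def sch (C : Finset (Fin 3 → F)) : ℕ := ((C ×ˢ C).filter fun w => w.1 + w.2 ∈ C).card

theorem IsCone.smul_mem {R C : Finset (Fin 3 → F)} (h : IsCone R C) {w : Fin 3 → F} {c : F}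
    (hc : c ≠ 0) : c • w ∈ C ↔ w ∈ C := by
  rw [h.mem, h.mem]
  constructor
  · rintro ⟨r, hr, d, hd, e⟩
    refine ⟨r, hr, c⁻¹ * d, mul_ne_zero (inv_ne_zero hc) hd, ?_⟩
    rw [mul_smul, ← e, smul_smul, inv_mul_cancel₀ hc, one_smul]
  · rintro ⟨r, hr, d, hd, rfl⟩
    exact ⟨r, hr, c * d, mul_ne_zero hc hd, by rw [mul_smul]⟩

theorem IsCone.eq_of_smul {R C : Finset (Fin 3 → F)} (h : IsCone R C) {r r' : Fin 3 → F}
    (hr : r ∈ R) (hr' : r' ∈ R) {c c' : F} (hc : c ≠ 0) (e : c • r = c' • r') : r = r' := by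
  by_contra hne
  have h1 := h.indep r hr r' hr' hne
  rw [LinearIndependent.pair_iff] at h1
  have h2 := h1 c (-c') (by rw [e, neg_smul, add_neg_cancel])
  exact hc h2.1

theorem card_units : (univ.filter fun c : F => c ≠ 0).card = Fintype.card F - 1 := by
  rw [filter_ne', card_erase_of_mem (mem_univ _), card_univ]

theorem IsCone.card {R C : Finset (Fin 3 → F)} (h : IsCone R C) :
    C.card = R.card * (Fintype.card F - 1) := by
  rw [← card_units, ← card_product]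
  symm
  refine card_bij (fun p _ => p.2 • p.1) ?_ ?_ ?_
  · rintro ⟨r, c⟩ hp
    simp only [mem_product, mem_filter, mem_univ, true_and] at hp
    exact (h.mem _).2 ⟨r, hp.1, c, hp.2, rfl⟩
  · rintro ⟨r, c⟩ hp ⟨r', c'⟩ hp' e
    simp only [mem_product, mem_filter, mem_univ, true_and] at hp hp'
    have h1 : r = r' := h.eq_of_smul hp.1 hp'.1 hp.2 e
    subst h1
    simp only at e
    have h2 := smul_left_injective F (h.ne r hp.1) e
    rw [h2]
  · intro w hw
    obtain ⟨r, hr, c, hc, rfl⟩ := (h.mem w).1 hw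
    exact ⟨(r, c), by simp [hr, hc], rfl⟩

theorem IsCone.sch_le {R C : Finset (Fin 3 → F)} (h : IsCone R C) :
    sch C ≤ R.card * (Fintype.card F - 1) ^ 2 + (Fintype.card F - 1) * ∑ rr ∈ R.offDiag, t C rr := by
  set U := univ.filter fun c : F => c ≠ 0 with hU
  have hUc : U.card = Fintype.card F - 1 := card_units
  -- all quadruples
  set A : Finset (((Fin 3 → F) × (Fin 3 → F)) × (F × F)) :=
    ((R ×ˢ R) ×ˢ (U ×ˢ U)).filter fun x => x.2.1 • x.1.1 + x.2.2 • x.1.2 ∈ C with hA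
  have h1 : sch C ≤ A.card := by
    rw [sch]
    refine card_le_card_of_surjOn (fun x => (x.2.1 • x.1.1, x.2.2 • x.1.2)) ?_
    rintro ⟨w, w'⟩ hw
    simp only [coe_filter, mem_product, Set.mem_ofPred_eq] at hw
    obtain ⟨⟨hw1, hw2⟩, hw3⟩ := hw
    obtain ⟨r, hr, c, hc, rfl⟩ := (h.mem w).1 hw1
    obtain ⟨r', hr', c', hc', rfl⟩ := (h.mem w').1 hw2
    refine ⟨((r, r'), (c, c')), ?_, rfl⟩
    simp only [hA, hU, coe_filter, mem_product, Set.mem_ofPred_eq, mem_filter, mem_univ, true_and]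
    exact ⟨⟨⟨hr, hr'⟩, hc, hc'⟩, hw3⟩
  have h2 : A.card = ∑ rr ∈ R ×ˢ R, ((U ×ˢ U).filter fun x => x.1 • rr.1 + x.2 • rr.2 ∈ C).card := by
    rw [hA, card_filter, sum_product]
    refine sum_congr rfl fun rr _ => ?_
    rw [card_filter]
  have h3 : R ×ˢ R = R.offDiag ∪ R.diag := by
    rw [union_comm, diag_union_offDiag]
  rw [h3, sum_union (disjoint_diag_offDiag R).symm] at h2
  have h4 : ∑ rr ∈ R.diag, ((U ×ˢ U).filter fun x => x.1 • rr.1 + x.2 • rr.2 ∈ C).card ≤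
      R.card * (Fintype.card F - 1) ^ 2 := by
    calc _ ≤ ∑ rr ∈ R.diag, (Fintype.card F - 1) ^ 2 := by
          refine sum_le_sum fun rr _ => ?_
          refine (card_filter_le _ _).trans ?_
          rw [card_product, hUc, sq]
      _ = _ := by rw [sum_const, smul_eq_mul, diag_card]
  have h5 : ∀ rr ∈ R.offDiag, ((U ×ˢ U).filter fun x => x.1 • rr.1 + x.2 • rr.2 ∈ C).card =
      (Fintype.card F - 1) * t C rr := by
    intro rr _
    rw [← hUc, t, ← card_product]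
    refine card_bij (fun x _ => (x.1, x.1⁻¹ * x.2)) ?_ ?_ ?_
    · rintro ⟨a, b⟩ hx
      simp only [hU, mem_filter, mem_product, mem_univ, true_and] at hx ⊢
      obtain ⟨⟨ha, hb⟩, hab⟩ := hx
      refine ⟨ha, mul_ne_zero (inv_ne_zero ha) hb, ?_⟩
      rw [← h.smul_mem ha, smul_add, smul_smul, ← mul_assoc, mul_inv_cancel₀ ha, one_mul]
      exact hab
    · rintro ⟨a, b⟩ hx ⟨a', b'⟩ hx' e
      simp only [hU, mem_filter, mem_product, mem_univ, true_and] at hx hx'
      simp only [Prod.mk.injEq] at e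
      obtain ⟨rfl, e2⟩ := e
      have := mul_left_cancel₀ (inv_ne_zero hx.1.1) e2
      rw [this]
    · rintro ⟨a, μ⟩ hx
      simp only [hU, mem_filter, mem_product, mem_univ, true_and] at hx
      obtain ⟨ha, hμ, hm⟩ := hx
      refine ⟨(a, a * μ), ?_, ?_⟩
      · simp only [hU, mem_filter, mem_product, mem_univ, true_and]
        refine ⟨⟨ha, mul_ne_zero ha hμ⟩, ?_⟩
        rw [← h.smul_mem ha, smul_add, smul_smul] at hm
        exact hm
      · simp [← mul_assoc, inv_mul_cancel₀ ha]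
  rw [sum_congr rfl h5, ← mul_sum] at h2
  omega

theorem IsCone.card_schab {R C : Finset (Fin 3 → F)} (h : IsCone R C) {a b : F} (ha : a ≠ 0)
    (hb : b ≠ 0) : ((C ×ˢ C).filter fun w => a • w.1 + b • w.2 ∈ C).card = sch C := by
  rw [sch]
  refine card_bij' (fun w _ => (a • w.1, b • w.2)) (fun w _ => (a⁻¹ • w.1, b⁻¹ • w.2)) ?_ ?_ ?_ ?_
  · rintro ⟨w, w'⟩ hw
    simp only [mem_filter, mem_product] at hw ⊢
    exact ⟨⟨(h.smul_mem ha).2 hw.1.1, (h.smul_mem hb).2 hw.1.2⟩, hw.2⟩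
  · rintro ⟨w, w'⟩ hw
    simp only [mem_filter, mem_product] at hw ⊢
    refine ⟨⟨(h.smul_mem (inv_ne_zero ha)).2 hw.1.1, (h.smul_mem (inv_ne_zero hb)).2 hw.1.2⟩, ?_⟩
    rw [smul_smul, smul_smul, mul_inv_cancel₀ ha, mul_inv_cancel₀ hb, one_smul, one_smul]
    exact hw.2
  · rintro ⟨w, w'⟩ _
    simp [smul_smul, inv_mul_cancel₀ ha, inv_mul_cancel₀ hb]
  · rintro ⟨w, w'⟩ _
    simp [smul_smul, mul_inv_cancel₀ ha, mul_inv_cancel₀ hb]

/-- the vectors of `R` in the span of `r₁`, `r₂` -/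
theorem IsCone.dep_le {R C : Finset (Fin 3 → F)} (h : IsCone R C) {rr : (Fin 3 → F) × (Fin 3 → F)}
    (hrr : rr ∈ R.offDiag) [DecidablePred fun r => r ∈ Submodule.span F {rr.1, rr.2}] :
    (((R.erase rr.1).erase rr.2).filter fun r => r ∈ Submodule.span F {rr.1, rr.2}).card ≤
      t C rr := by
  rw [t]
  rw [mem_offDiag] at hrr
  refine card_le_card_of_forall_subsingleton
    (fun r μ => ∃ c : F, c ≠ 0 ∧ rr.1 + μ • rr.2 = c • r) ?_ ?_
  · intro r hr
    simp only [mem_filter, mem_erase] at hr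
    obtain ⟨⟨hr2, hr1, hrR⟩, hs⟩ := hr
    obtain ⟨a, b, e⟩ := Submodule.mem_span_pair.1 hs
    have ha : a ≠ 0 := by
      rintro rfl
      rw [zero_smul, zero_add] at e
      refine hr2 (h.eq_of_smul hrR hrr.2.1 (c := 1) (c' := b) one_ne_zero ?_)
      rw [one_smul, e]
    have hb : b ≠ 0 := by
      rintro rfl
      rw [zero_smul, add_zero] at e
      refine hr1 (h.eq_of_smul hrR hrr.1 (c := 1) (c' := a) one_ne_zero ?_)
      rw [one_smul, e]
    have e2 : rr.1 + (a⁻¹ * b) • rr.2 = a⁻¹ • r := by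
      rw [← e, smul_add, smul_smul, smul_smul, inv_mul_cancel₀ ha, one_smul]
    refine ⟨a⁻¹ * b, ?_, a⁻¹, inv_ne_zero ha, e2⟩
    simp only [mem_filter, mem_univ, true_and]
    refine ⟨mul_ne_zero (inv_ne_zero ha) hb, ?_⟩
    rw [e2]
    exact (h.mem _).2 ⟨r, hrR, a⁻¹, inv_ne_zero ha, rfl⟩
  · intro μ _ r hr r' hr'
    simp only [mem_filter, mem_erase, Set.mem_ofPred_eq] at hr hr'
    obtain ⟨⟨⟨_, _, hrR⟩, _⟩, c, hc, e⟩ := hr
    obtain ⟨⟨⟨_, _, hrR'⟩, _⟩, c', hc', e'⟩ := hr'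
    exact h.eq_of_smul hrR hrR' hc (e.symm.trans e')

theorem IsCone.triple_le {R C : Finset (Fin 3 → F)} (h : IsCone R C) {rr : (Fin 3 → F) × (Fin 3 → F)}
    (hrr : rr ∈ R.offDiag) {r : Fin 3 → F} (hr : r ∈ (R.erase rr.1).erase rr.2)
    [Decidable (r ∈ Submodule.span F {rr.1, rr.2})] :
    (univ.filter fun M : Matrix (Fin 3) (Fin 3) F =>
          M *ᵥ rr.1 ∈ C ∧ M *ᵥ rr.2 ∈ C ∧ M *ᵥ r ∈ C).card ≤
      C.card ^ 3 + if r ∈ Submodule.span F {rr.1, rr.2} then Fintype.card F ^ 3 * sch C else 0 := by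
  rw [mem_offDiag] at hrr
  simp only [mem_erase] at hr
  have hi := h.indep _ hrr.1 _ hrr.2.1 hrr.2.2
  split_ifs with hs
  · obtain ⟨a, b, e⟩ := Submodule.mem_span_pair.1 hs
    have ha : a ≠ 0 := by
      rintro rfl
      rw [zero_smul, zero_add] at e
      refine hr.1 (h.eq_of_smul hr.2.2 hrr.2.1 (c := 1) (c' := b) one_ne_zero ?_)
      rw [one_smul, e]
    have hb : b ≠ 0 := by
      rintro rfl
      rw [zero_smul, add_zero] at e
      refine hr.2.1 (h.eq_of_smul hr.2.2 hrr.1 (c := 1) (c' := a) one_ne_zero ?_)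
      rw [one_smul, e]
    have h1 := card_eval_two rr.1 rr.2 hi ((C ×ˢ C).filter fun w => a • w.1 + b • w.2 ∈ C)
    rw [h.card_schab ha hb] at h1
    have h2 : (univ.filter fun M : Matrix (Fin 3) (Fin 3) F =>
          M *ᵥ rr.1 ∈ C ∧ M *ᵥ rr.2 ∈ C ∧ M *ᵥ r ∈ C) =
        (univ.filter fun M : Matrix (Fin 3) (Fin 3) F =>
          (M *ᵥ rr.1, M *ᵥ rr.2) ∈ ((C ×ˢ C).filter fun w => a • w.1 + b • w.2 ∈ C)) := by
      ext M
      simp only [mem_filter, mem_univ, true_and, mem_product]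
      rw [← e, Matrix.mulVec_add, Matrix.mulVec_smul, Matrix.mulVec_smul]
      tauto
    rw [h2, h1, mul_comm]
    exact Nat.le_add_left _ _
  · have hl : LinearIndependent F ![r, rr.1, rr.2] := by
      rw [show (![r, rr.1, rr.2] : Fin 3 → (Fin 3 → F)) = Fin.cons r ![rr.1, rr.2] from rfl,
        linearIndependent_finCons]
      refine ⟨hi, ?_⟩
      rw [Matrix.range_cons, Matrix.range_cons, Matrix.range_empty, Set.union_empty]
      exact hs
    have h1 := card_eval_all (by norm_num) ![r, rr.1, rr.2] hl C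
    have h2 : (univ.filter fun M : Matrix (Fin 3) (Fin 3) F =>
          M *ᵥ rr.1 ∈ C ∧ M *ᵥ rr.2 ∈ C ∧ M *ᵥ r ∈ C) =
        (univ.filter fun M : Matrix (Fin 3) (Fin 3) F =>
          ∀ i, M *ᵥ (![r, rr.1, rr.2] : Fin 3 → (Fin 3 → F)) i ∈ C) := by
      ext M
      simp only [mem_filter, mem_univ, true_and, Fin.forall_fin_succ]
      simp
      tauto
    rw [h2, h1]
    simp

theorem IsCone.sum_X3_le {R C : Finset (Fin 3 → F)} (h : IsCone R C) (T : ℕ)
    (hT : ∑ rr ∈ R.offDiag, t C rr ≤ T) :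
    ∑ M : Matrix (Fin 3) (Fin 3) F, ((X R C M : ℤ) * (X R C M - 1) * (X R C M - 2)) ≤
      (R.card : ℤ) * (R.card - 1) * (R.card - 2) * C.card ^ 3 +
        T * (Fintype.card F ^ 3 * (R.card * (Fintype.card F - 1) ^ 2 + (Fintype.card F - 1) * T)) := by
  classical
  have hq : 1 ≤ Fintype.card F := Fintype.card_pos
  rw [sum_X3_eq]
  have hs : (sch C : ℤ) ≤ (R.card * (Fintype.card F - 1) ^ 2 + (Fintype.card F - 1) * T) := by
    have h1 := h.sch_le
    have h2 : (Fintype.card F - 1) * ∑ rr ∈ R.offDiag, t C rr ≤ (Fintype.card F - 1) * T :=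
      Nat.mul_le_mul_left _ hT
    have h3 : sch C ≤ R.card * (Fintype.card F - 1) ^ 2 + (Fintype.card F - 1) * T := by omega
    zify [hq] at h3
    exact h3
  have h1 : ∀ rr ∈ R.offDiag, (∑ r ∈ (R.erase rr.1).erase rr.2,
        ((univ.filter fun M : Matrix (Fin 3) (Fin 3) F =>
          M *ᵥ rr.1 ∈ C ∧ M *ᵥ rr.2 ∈ C ∧ M *ᵥ r ∈ C).card : ℤ)) ≤
      (R.card - 2) * C.card ^ 3 + t C rr * (Fintype.card F ^ 3 * sch C) := by
    intro rr hrr
    have h2 : (∑ r ∈ (R.erase rr.1).erase rr.2,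
        ((univ.filter fun M : Matrix (Fin 3) (Fin 3) F =>
          M *ᵥ rr.1 ∈ C ∧ M *ᵥ rr.2 ∈ C ∧ M *ᵥ r ∈ C).card : ℤ)) ≤
        ∑ r ∈ (R.erase rr.1).erase rr.2, ((C.card : ℤ) ^ 3 +
          if r ∈ Submodule.span F {rr.1, rr.2} then ((Fintype.card F : ℤ) ^ 3 * sch C) else 0) := by
      refine sum_le_sum fun r hr => ?_
      have := h.triple_le hrr hr
      exact_mod_cast this
    refine h2.trans ?_
    rw [sum_add_distrib, sum_const, nsmul_eq_mul, ← sum_filter, sum_const, nsmul_eq_mul]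
    have hrr' := mem_offDiag.1 hrr
    rw [erase_erase_card R hrr'.1 hrr'.2.1 hrr'.2.2]
    have h3 := h.dep_le hrr
    have h4 : (0 : ℤ) ≤ (Fintype.card F : ℤ) ^ 3 * sch C := by positivity
    have h5 : ((((R.erase rr.1).erase rr.2).filter
      fun r => r ∈ Submodule.span F {rr.1, rr.2}).card : ℤ) ≤ t C rr := by exact_mod_cast h3
    nlinarith [mul_le_mul_of_nonneg_right h5 h4]
  refine (sum_le_sum h1).trans ?_
  rw [sum_add_distrib, sum_const, nsmul_eq_mul, ← sum_mul]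
  have h6 := offDiag_card R
  have h7 : R.card ≤ R.card * R.card := by nlinarith [Nat.zero_le R.card]
  zify [h7] at h6
  rw [h6]
  have h8 : (∑ rr ∈ R.offDiag, (t C rr : ℤ)) ≤ T := by exact_mod_cast hT
  have h9 : (0 : ℤ) ≤ (Fintype.card F : ℤ) ^ 3 * sch C := by positivity
  have h10 : (∑ rr ∈ R.offDiag, (t C rr : ℤ)) * ((Fintype.card F : ℤ) ^ 3 * sch C) ≤
      T * (Fintype.card F ^ 3 * (R.card * (Fintype.card F - 1) ^ 2 + (Fintype.card F - 1) * T)) := by
    refine mul_le_mul h8 ?_ h9 (by positivity)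
    exact mul_le_mul_of_nonneg_left hs (by positivity)
  nlinarith [h10]

/-- the key inequality for the number of common points -/
theorem poly_le (x : ℕ) : (12 : ℤ) - 12 * x + 5 * (x * (x - 1)) - x * (x - 1) * (x - 2) ≤
    if x = 0 then 12 else 0 := by
  split_ifs with h
  · subst h; norm_num
  · have hx : (1 : ℤ) ≤ x := by omega
    have e : (12 : ℤ) - 12 * x + 5 * (x * (x - 1)) - x * (x - 1) * (x - 2) =
        (1 - x) * ((x - 3) * (x - 4)) := by ring
    rw [e]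
    have h1 : (0 : ℤ) ≤ (x - 3) * (x - 4) := by
      rcases le_or_gt (x : ℤ) 3 with h3 | h3
      · exact mul_nonneg_of_nonpos_of_nonpos (by linarith) (by linarith)
      · exact mul_nonneg (by linarith) (by linarith [Int.add_one_le_of_lt h3])
    nlinarith

/-- **The averaging lemma.** -/
theorem IsCone.exists_matrix {R C : Finset (Fin 3 → F)} (h : IsCone R C) (T : ℕ)
    (hT : ∑ rr ∈ R.offDiag, t C rr ≤ T) (q m : ℤ) (hq : (Fintype.card F : ℤ) = q)
    (hm : (R.card : ℤ) = m)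
    (hnum : 0 < 12 * ((q ^ 3 - 1) * (q ^ 3 - q) * (q ^ 3 - q ^ 2)) - 12 * (m * (m * (q - 1)) * q ^ 6)
      + 5 * (m * (m - 1) * (m * (q - 1)) ^ 2 * q ^ 3) - m * (m - 1) * (m - 2) * (m * (q - 1)) ^ 3
      - T * (q ^ 3 * (m * (q - 1) ^ 2 + (q - 1) * T))) :
    ∃ M : Matrix (Fin 3) (Fin 3) F, IsUnit M ∧ ∀ r ∈ R, M *ᵥ r ∉ C := by
  have hq1 : 1 ≤ Fintype.card F := Fintype.card_pos
  have hc : (C.card : ℤ) = m * (q - 1) := by
    rw [h.card, ← hq, ← hm]
    push_cast [Nat.cast_sub hq1]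
    ring
  have s1 := sum_X R C h.ne
  have s2 := sum_X2 R C h.indep
  have s3 := h.sum_X3_le T hT
  rw [hm, hc, hq] at s3 s2
  have s1' : ∑ M : Matrix (Fin 3) (Fin 3) F, (X R C M : ℤ) = m * (m * (q - 1) * q ^ 6) := by
    have : ((∑ M : Matrix (Fin 3) (Fin 3) F, X R C M : ℕ) : ℤ) =
      ((R.card * (C.card * Fintype.card F ^ 6) : ℕ) : ℤ) := by rw [s1]
    push_cast at this
    rw [this, hm, hc, hq]
  have s0 : ∑ _M : Matrix (Fin 3) (Fin 3) F, (12 : ℤ) = 12 * q ^ 9 := by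
    rw [sum_const, card_univ, show Fintype.card (Matrix (Fin 3) (Fin 3) F) =
      Fintype.card (Fin 3 → Fin 3 → F) from Fintype.card_congr (Matrix.of.symm), Fintype.card_fun,
      Fintype.card_fun, Fintype.card_fin, ← pow_mul, nsmul_eq_mul]
    push_cast
    rw [hq]
    ring
  have hle : ∑ M : Matrix (Fin 3) (Fin 3) F, ((12 : ℤ) - 12 * X R C M +
      5 * (X R C M * (X R C M - 1)) - X R C M * (X R C M - 1) * (X R C M - 2)) ≤
      12 * ((univ.filter fun M : Matrix (Fin 3) (Fin 3) F => X R C M = 0).card : ℤ) := by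
    refine (sum_le_sum fun M _ => poly_le (X R C M)).trans ?_
    rw [← sum_filter, sum_const, nsmul_eq_mul, mul_comm]
  rw [sum_sub_distrib, sum_add_distrib, sum_sub_distrib, ← mul_sum, ← mul_sum, s0, s1', s2] at hle
  have hsing := card_singular F
  rw [hq] at hsing
  by_contra hno
  push Not at hno
  have hsub : (univ.filter fun M : Matrix (Fin 3) (Fin 3) F => X R C M = 0) ⊆
      (univ.filter fun M : Matrix (Fin 3) (Fin 3) F => ¬ IsUnit M) := by
    intro M hM
    simp only [mem_filter, mem_univ, true_and] at hM ⊢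
    intro hu
    obtain ⟨r, hr, hrC⟩ := hno M hu
    rw [X, card_eq_zero] at hM
    have : r ∈ R.filter fun r => M *ᵥ r ∈ C := by simp [hr, hrC]
    rw [hM] at this
    simp at this
  have hcard : ((univ.filter fun M : Matrix (Fin 3) (Fin 3) F => X R C M = 0).card : ℤ) ≤
      ((univ.filter fun M : Matrix (Fin 3) (Fin 3) F => ¬ IsUnit M).card : ℤ) := by
    exact_mod_cast card_le_card hsub
  rw [hsing] at hcard
  nlinarith [hcard, hle, s3, hnum]

end Pool.Agent.K4H73.Blocking
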